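import Pool.Agent.Y661.HE.Stm

/-! Project HE (helper661), part AS3: asymptotics. -/

set_option autoImplicit false

namespace Pool.Agent.Y274.HE.AS3

open Filter
open Pool.Agent.Y661.HE

theorem main : S_AS3 := by
  intro β hβ0 hβ1
  have ht : Tendsto (fun d : ℕ => (d : ℝ) ^ β) atTop atTop :=
    (tendsto_rpow_atTop hβ0).comp tendsto_natCast_atTop_atTop
  have hX : Tendsto (fun d : ℕ => Real.exp ((d : ℝ) ^ β)) atTop atTop :=
    Real.tendsto_exp_atTop.comp ht
  have h1 : ∀ᶠ d : ℕ in atTop, 1 ≤ Real.exp ((d : ℝ) ^ β) / ((d : ℝ) ^ β) ^ (1 / β) :=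
    ht.eventually ((tendsto_exp_div_rpow_atTop (1 / β)).eventually_ge_atTop 1)
  have h2 : ∀ᶠ d : ℕ in atTop, 3136 ≤
      Real.exp (Real.exp ((d : ℝ) ^ β)) / (Real.exp ((d : ℝ) ^ β)) ^ 4 :=
    hX.eventually ((Real.tendsto_exp_div_pow_atTop 4).eventually_ge_atTop 3136)
  filter_upwards [h1, h2, hX.eventually_ge_atTop 1, eventually_ge_atTop 1] with d h1 h2 h3 h4
  have hd : (1 : ℝ) ≤ d := by exact_mod_cast h4
  have hd0 : (0 : ℝ) < d := by linarith
  set t : ℝ := (d : ℝ) ^ β with htd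
  have ht0 : 0 ≤ t := by positivity
  set X : ℝ := Real.exp t with hXd
  have hX0 : 0 < X := Real.exp_pos _
  have hdX : (d : ℝ) ≤ X := by
    have ht1 : t ^ (1 / β) = d := by
      rw [htd, ← Real.rpow_mul hd0.le, mul_one_div_cancel hβ0.ne', Real.rpow_one]
    rw [ht1, le_div_iff₀ hd0, one_mul] at h1
    exact h1
  have hexp : 3136 * X ^ 4 ≤ Real.exp X := by
    rwa [le_div_iff₀ (by positivity)] at h2
  have hLLc : ((LL β d : ℕ) : ℝ) = (2 : ℝ) ^ (2 * ⌈X⌉₊) := by
    unfold LL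
    push_cast
    rfl
  have hLL1 : Real.exp X ≤ ((LL β d : ℕ) : ℝ) := by
    rw [hLLc, pow_mul]
    calc Real.exp X ≤ Real.exp ((⌈X⌉₊ : ℕ) : ℝ) := Real.exp_le_exp.2 (Nat.le_ceil X)
      _ = (Real.exp 1) ^ ⌈X⌉₊ := by rw [← Real.exp_nat_mul, mul_one]
      _ ≤ (2 ^ 2) ^ ⌈X⌉₊ := by
          apply pow_le_pow_left₀ (Real.exp_pos _).le
          have := Real.exp_one_lt_d9
          norm_num at this ⊢
          linarith
  have hLL0 : 0 < ((LL β d : ℕ) : ℝ) := lt_of_lt_of_le (Real.exp_pos _) hLL1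
  have hlog : Real.log ((LL β d : ℕ) : ℝ) ≤ 3 * X := by
    rw [hLLc, Real.log_pow]
    have e1 := Nat.ceil_lt_add_one hX0.le
    have e2 := Real.log_two_lt_d9
    have e3 : 0 < Real.log 2 := Real.log_pos (by norm_num)
    have e4 : (0 : ℝ) ≤ (⌈X⌉₊ : ℝ) := by positivity
    push_cast
    nlinarith
  have hN : ((NN β d : ℕ) : ℝ) ≤ X := by
    have e1 : ((NN β d : ℕ) : ℝ) < t + 1 := Nat.ceil_lt_add_one ht0
    have e2 : t + 1 ≤ X := Real.add_one_le_exp t
    linarith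
  have hN0 : (0 : ℝ) ≤ ((NN β d : ℕ) : ℝ) := by positivity
  set m : ℕ := (NN β d + 1) * NN β d with hm
  have hmX : (m : ℝ) ≤ 2 * X ^ 2 := by
    rw [hm]
    push_cast
    nlinarith
  have hX4 : X ^ 2 ≤ X ^ 4 := pow_le_pow_right₀ h3 (by norm_num)
  have hm2 : (m : ℝ) ≤ ((LL β d : ℕ) : ℝ) / 2 := by
    have e1 : 0 ≤ X ^ 2 := by positivity
    linarith
  set n : ℕ := LL β d - m + 1 with hn
  have hn1 : ((LL β d : ℕ) : ℝ) / 2 ≤ (n : ℝ) := by
    have e1 : LL β d ≤ (LL β d - m) + m := le_tsub_add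
    have e2 : ((LL β d : ℕ) : ℝ) ≤ ((LL β d - m : ℕ) : ℝ) + m := by exact_mod_cast e1
    rw [hn]
    push_cast
    linarith
  have hrr : rr β d = X⁻¹ := by
    unfold rr
    rw [← htd, hXd, ← Real.exp_neg]
  set y : ℝ := rr β d / 2 / (8 * d) with hy
  have hyv : y = 1 / (16 * d * X) := by
    rw [hy, hrr]
    field_simp
    norm_num
  have hy0 : 0 < y := by
    rw [hyv]
    positivity
  have hy1 : y ≤ 1 := by
    rw [hyv, div_le_one (by positivity)]
    nlinarith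
  have hpow : (1 - y) ^ n ≤ Real.exp (-(n * y)) := by
    calc (1 - y) ^ n ≤ (Real.exp (-y)) ^ n :=
          pow_le_pow_left₀ (by linarith) (Real.one_sub_le_exp_neg y) n
      _ = Real.exp (-(n * y)) := by
          rw [← Real.exp_nat_mul]
          congr 1
          ring
  have hny : 98 * X ^ 2 ≤ n * y := by
    have e1 : 98 * X ^ 2 * (32 * d * X) ≤ ((LL β d : ℕ) : ℝ) := by
      calc 98 * X ^ 2 * (32 * d * X) = 3136 * (X ^ 3 * d) := by ring
        _ ≤ 3136 * (X ^ 3 * X) := by gcongr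
        _ = 3136 * X ^ 4 := by ring
        _ ≤ _ := hexp.trans hLL1
    have e2 : (n : ℝ) * y = n / (16 * d * X) := by
      rw [hyv]
      ring
    rw [e2, le_div_iff₀ (by positivity)]
    have e3 : 98 * X ^ 2 * (16 * d * X) = (98 * X ^ 2 * (32 * d * X)) / 2 := by ring
    rw [e3]
    linarith
  have hk : ((LL β d : ℕ) : ℝ) ^ (4 * (3 * d + 4) + 2 * d + 2) =
      Real.exp ((14 * d + 18) * Real.log ((LL β d : ℕ) : ℝ)) := by
    rw [← Real.exp_log (pow_pos hLL0 _), Real.log_pow]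
    congr 1
    push_cast
    ring
  rw [hk, ← Real.exp_neg]
  have h32 : (3 : ℝ) ≤ Real.exp 2 := by
    have := Real.add_one_le_exp (2 : ℝ)
    linarith
  calc 3 * (1 - y) ^ n ≤ Real.exp 2 * Real.exp (-(n * y)) :=
        mul_le_mul h32 hpow (pow_nonneg (by linarith) _) (Real.exp_pos _).le
    _ = Real.exp (2 - n * y) := by
        rw [← Real.exp_add]
        congr 1
    _ ≤ Real.exp (-((14 * d + 18) * Real.log ((LL β d : ℕ) : ℝ))) := by
        apply Real.exp_le_exp.2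
        have e1 : (14 * (d : ℝ) + 18) * Real.log ((LL β d : ℕ) : ℝ) ≤ (14 * X + 18) * (3 * X) := by
          have e0 : 0 ≤ Real.log ((LL β d : ℕ) : ℝ) := by
            apply Real.log_nonneg
            have : (1 : ℝ) ≤ Real.exp X := Real.one_le_exp hX0.le
            linarith
          apply mul_le_mul _ hlog e0 (by positivity)
          linarith
        nlinarith

end Pool.Agent.Y274.HE.AS3
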